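import Mathlib

namespace Pool.Agent.Results.MP_3b44a3_an.Counter
open Quaternion PowerSeries Filter Topology MeasureTheory

/-- value of `f = ∑ q ^ n a_n` (coefficients on the right) -/
noncomputable def ev (f : PowerSeries ℍ[ℝ]) (q : ℍ[ℝ]) : ℍ[ℝ] := ∑' n, q ^ n * coeff n f

/-- the regular conjugate -/
noncomputable def cj (f : PowerSeries ℍ[ℝ]) : PowerSeries ℍ[ℝ] := mk fun n => star (coeff n f)

/-- inner functions -/
def Inner (f : PowerSeries ℍ[ℝ]) : Prop :=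
  letI : MeasurableSpace ℍ[ℝ] := borel _
  haveI : BorelSpace ℍ[ℝ] := ⟨rfl⟩
  (∀ q : ℍ[ℝ], ‖q‖ < 1 → ‖ev f q‖ ≤ 1) ∧
    ∀ᵐ q ∂(Measure.hausdorffMeasure 3 : Measure ℍ[ℝ]), ‖q‖ = 1 →
      ∃ L : ℍ[ℝ], ‖L‖ = 1 ∧ Tendsto (fun r : ℝ => ev f (r • q)) (𝓝[<] 1) (𝓝 L)

noncomputable def io : ℂ →+* ℍ[ℝ] := (Quaternion.ofComplex : ℂ →ₐ[ℝ] ℍ[ℝ]).toRingHom

noncomputable def E (b : ℂ) : PowerSeries ℍ[ℝ] := PowerSeries.map io (rescale b (exp ℂ))

lemma nio (z : ℂ) : ‖io z‖ = ‖z‖ := by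
  have : ‖io z‖ * ‖io z‖ = ‖z‖ * ‖z‖ := by
    rw [← normSq_eq_norm_mul_self, Complex.norm_mul_self_eq_normSq]
    simp [io, normSq_def', Complex.normSq_apply, sq]
  exact (mul_self_inj_of_nonneg (norm_nonneg _) (norm_nonneg _)).1 this

lemma cE (b : ℂ) (n : ℕ) : coeff n (E b) = io (b ^ n * ((n.factorial : ℝ)⁻¹ : ℝ)) := by
  simp [E, coeff_rescale, coeff_exp]

lemma sio (z : ℂ) : star (io z) = io (star z) := by ext <;> simp [io]

lemma cjE (m : ℕ) : cj (X ^ m * E Complex.I) = X ^ m * E (-Complex.I) := by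
  ext1 n
  simp only [cj, coeff_mk, coeff_X_pow_mul', cE]
  split_ifs
  · rw [sio]; simp
  · simp

lemma notI (m : ℕ) (b : ℂ) (hb : -b * b = 1) (hn : ‖b‖ = 1) : ¬ Inner (X ^ m * E b) := by
  rintro ⟨h, -⟩
  set r : ℝ := 1 - 1 / (4 * m + 4) with hr
  have h0 : (0 : ℝ) < 1 / (4 * m + 4) := by positivity
  have h1 : (1 : ℝ) / (4 * m + 4) ≤ 1 / 4 :=
    one_div_le_one_div_of_le (by norm_num) (by linarith [Nat.cast_nonneg (α := ℝ) m])
  have hr0 : 0 ≤ r := by linarith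
  have hq : ‖io (r * -b)‖ = r := by rw [nio]; simp [hn, hr0]
  have h2 := h (io (r * -b)) (by rw [hq]; linarith)
  have h3 : HasSum (fun n => io (r * -b) ^ n * coeff n (X ^ m * E b))
      (io (r * -b) ^ m * ((Real.exp r : ℝ) : ℍ[ℝ])) := by
    rw [← hasSum_nat_add_iff' m, Finset.sum_eq_zero (fun i hi => by
      rw [coeff_X_pow_mul', if_neg (by simpa using hi), mul_zero]), sub_zero]
    have h4 : HasSum (fun n : ℕ => ((r ^ n / n.factorial : ℝ) : ℍ[ℝ])) ((Real.exp r : ℝ) : ℍ[ℝ]) := by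
      rw [Real.exp_eq_exp_ℝ]
      exact (NormedSpace.expSeries_div_hasSum_exp r).map (algebraMap ℝ ℍ[ℝ])
        (continuous_algebraMap _ _)
    refine (h4.mul_left (io (r * -b) ^ m)).congr_fun fun n => ?_
    rw [coeff_X_pow_mul, cE, add_comm, pow_add, mul_assoc, ← map_pow io _ n, ← map_mul,
      ← mul_assoc, ← mul_pow, mul_assoc, hb, mul_one, div_eq_mul_inv]
    congr 1
    rw [← Complex.ofReal_pow, ← Complex.ofReal_mul]
    ext <;> simp [io, -Complex.ofReal_mul]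
  rw [ev, h3.tsum_eq, norm_mul, norm_pow, hq, norm_coe, Real.norm_eq_abs,
    abs_of_pos (Real.exp_pos r)] at h2
  have h5 := Real.add_one_le_exp r
  have h6 := one_add_mul_le_pow (a := -(1 / (4 * m + 4) : ℝ)) (by linarith) m
  rw [← sub_eq_add_neg, ← hr] at h6
  have h7 : (m : ℝ) * (1 / (4 * m + 4)) ≤ 1 / 4 := by
    rw [mul_one_div, div_le_div_iff₀ (by positivity) (by norm_num)]; linarith
  nlinarith

theorem result (m : ℕ) : ∃ f : PowerSeries ℍ[ℝ], Summable (fun n => ‖coeff n f‖ ^ 2) ∧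
    cj f * f = X ^ (2 * m) ∧ Inner (cj f * f) ∧ ¬ Inner f ∧ ¬ Inner (cj f) := by
  have e : cj (X ^ m * E Complex.I) * (X ^ m * E Complex.I) = X ^ (2 * m) := by
    have : E (-Complex.I) * E Complex.I = 1 := by
      rw [E, E, ← map_mul, exp_mul_exp_eq_exp_add, neg_add_cancel]
      simp
    rw [cjE, mul_assoc, ← mul_assoc (E _), (commute_X_pow (E _) m).eq, mul_assoc, this, mul_one,
      two_mul, pow_add]
  refine ⟨X ^ m * E Complex.I, ?_, e, ?_, notI m _ (by simp) (by simp), ?_⟩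
  · rw [← summable_nat_add_iff m]
    refine Summable.of_nonneg_of_le (fun n => by positivity) (fun n => ?_)
      (Real.summable_pow_div_factorial 1)
    have h1 : (1 : ℝ) ≤ n.factorial := by exact_mod_cast n.factorial_pos
    rw [coeff_X_pow_mul, cE, nio]
    simp only [norm_mul, norm_pow, Complex.norm_I, one_pow, one_mul, Complex.norm_real, norm_inv,
      Real.norm_natCast, one_div, sq]
    exact mul_le_of_le_one_left (by positivity) (inv_le_one_of_one_le₀ h1)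
  · have h1 : ∀ q, ev (X ^ (2 * m)) q = q ^ (2 * m) := fun q => by
      rw [ev, tsum_eq_single (2 * m) (fun n hn => by simp [coeff_X_pow, hn])]
      simp [coeff_X_pow]
    rw [e]
    refine ⟨fun q hq => ?_, Eventually.of_forall fun q hq => ⟨q ^ (2 * m), by simp [hq], ?_⟩⟩
    · rw [h1, norm_pow]
      exact pow_le_one₀ (norm_nonneg _) hq.le
    · simp only [h1]
      have : Continuous fun r : ℝ => (r • q) ^ (2 * m) := by fun_prop
      simpa using (this.tendsto 1).mono_left nhdsWithin_le_nhds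
  · rw [cjE]
    exact notI m _ (by simp) (by simp)

end Pool.Agent.Results.MP_3b44a3_an.Counter
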